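import Pool.Agent.H38.PS.Targets

set_option autoImplicit false

namespace Pool.Agent.H21.PS

open Pool.Agent.H38.PS

theorem lte_dvd {g n m m' : ℕ} {S : Finset ℕ}
    (hgS : g.primeFactors ⊆ S) (hg : g ≠ 0) (hco : m.Coprime g)
    (hmod : m ≡ m' [MOD 2 * pd S]) (hpow : m ^ n ≡ m' ^ n [MOD g]) :
    (g : ℤ) ∣ ((m : ℤ) - m') * n := by
  have h1 : ((2 * pd S : ℕ) : ℤ) ∣ (m : ℤ) - m' := by
    have := (Nat.modEq_iff_dvd.1 hmod.symm)
    simpa using this
  have h2 : (g : ℤ) ∣ (m : ℤ) ^ n - (m' : ℤ) ^ n := by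
    have := (Nat.modEq_iff_dvd.1 hpow.symm)
    simpa using this
  have key : g ∣ (((m : ℤ) - m') * n).natAbs := by
    rw [Nat.dvd_iff_prime_pow_dvd_dvd]
    intro p k hp hk
    rcases Nat.eq_zero_or_pos k with rfl | hkpos
    · simp
    have hpg : p ∣ g := (dvd_pow_self p hkpos.ne').trans hk
    have hpS : p ∈ S := hgS (Nat.mem_primeFactors.2 ⟨hp, hpg, hg⟩)
    have hpd : p ∣ pd S := Finset.dvd_prod_of_mem _ hpS
    have hpm : ¬ p ∣ m := fun h => hp.one_lt.ne'
      (Nat.dvd_one.1 (hco ▸ Nat.dvd_gcd h hpg))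
    have hpm' : ¬ (p : ℤ) ∣ (m : ℤ) := by
      intro h
      exact hpm (by exact_mod_cast h)
    have hd : (p : ℤ) ^ k ∣ (m : ℤ) ^ n - (m' : ℤ) ^ n := by
      refine dvd_trans ?_ h2
      exact_mod_cast hk
    have hpZ : Prime (p : ℤ) := Nat.prime_iff_prime_int.1 hp
    have hem : emultiplicity (p : ℤ) ((m : ℤ) ^ n - (m' : ℤ) ^ n) =
        emultiplicity (p : ℤ) ((m : ℤ) - m') + emultiplicity (p : ℤ) (n : ℤ) := by
      rcases hp.eq_two_or_odd' with rfl | hodd
      · have h4 : (4 : ℤ) ∣ (m : ℤ) - m' := by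
          refine dvd_trans ?_ h1
          obtain ⟨c, hc⟩ := hpd
          rw [hc]
          exact ⟨c, by push_cast; ring⟩
        exact_mod_cast Int.two_pow_sub_pow' n h4 (by exact_mod_cast hpm')
      · have hpd' : (p : ℤ) ∣ (m : ℤ) - m' := by
          refine dvd_trans ?_ h1
          exact_mod_cast (hpd.mul_left 2)
        rw [Int.emultiplicity_pow_sub_pow hp hodd hpd' hpm' n, Int.natCast_emultiplicity]
    have hfin : (p : ℤ) ^ k ∣ ((m : ℤ) - m') * n := by
      rw [pow_dvd_iff_le_emultiplicity, emultiplicity_mul hpZ, ← hem]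
      exact pow_dvd_iff_le_emultiplicity.1 hd
    have := Int.natAbs_dvd_natAbs.2 hfin
    simpa [Int.natAbs_pow] using this
  exact Int.natCast_dvd.2 key

theorem pf_LTE : T_LTE := by
  intro g n m m' S _ hg hn hgS hco hne hmod hpow
  have hdvd := lte_dvd hgS hg hco hmod hpow
  have hne' : ((m : ℤ) - m') * n ≠ 0 := by
    refine mul_ne_zero (sub_ne_zero.2 ?_) (by exact_mod_cast hn)
    exact_mod_cast hne
  have hle : g ≤ (((m : ℤ) - m') * n).natAbs :=
    Nat.le_of_dvd (Int.natAbs_pos.2 hne') (Int.natCast_dvd.1 hdvd)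
  refine hle.trans ?_
  rw [Int.natAbs_mul, Int.natAbs_natCast, mul_comm]
  refine Nat.mul_le_mul_left n ?_
  omega

end Pool.Agent.H21.PS
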